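import Pool.Agent.Helper61.NW.Goals2

set_option autoImplicit false

namespace Pool.Agent.Helper78.NW

open Pool.Agent.Helper52.Wq2 Pool.Agent.Helper61.NW

/-- A system of lines: `φ` moves every element by `H` upwards. -/
structure Sys {Γ : Type*} [Group Γ] (S : Set Γ) (X : Γ → ℤ) (H : ℤ) (φ : Equiv.Perm Γ) (m : ℕ) :
    Prop where
  gen : IsGen S
  Hpos : 0 < H
  mpos : 0 < m
  X1 : ∀ g, X (φ g) = X g + H
  adj : ∀ g, (cay S).Adj g (φ g)
  bd : ∀ a b, (cay S).Adj a b → |X a - X b| ≤ H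
  fin : {g | 0 ≤ X g ∧ X g < H}.Finite
  per : ∃ c : Γ, ∀ g, c * g = (φ ^ m) g
  tr : ∀ r r', ∃ (g : Γ) (e : ℤ), (e = 1 ∨ e = -1) ∧ (∀ x, g * φ x = (φ ^ e) (g * x)) ∧
    ∃ d : ℤ, g * r = (φ ^ d) r'

theorem cay_left {Γ : Type*} [Group Γ] {S : Set Γ} (hS : IsGen S) (g a b : Γ) :
    (cay S).Adj (g * a) (g * b) ↔ (cay S).Adj a b := by
  rw [cay_adj hS, cay_adj hS, mul_inv_rev, mul_assoc, inv_mul_cancel_left]

theorem conn_cay {Γ : Type*} [Group Γ] {S : Set Γ} (hS : IsGen S) :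
    Conn (cay S) Set.univ := by
  refine ⟨⟨1, trivial⟩, ?_⟩
  intro A _ hne hcl x _
  obtain ⟨a, ha⟩ := hne
  have key : ∀ y : Γ, a * y ∈ A := by
    intro y
    have hy : y ∈ Subgroup.closure S := by rw [hS.1]; trivial
    induction hy using Subgroup.closure_induction_right with
    | one => rwa [mul_one]
    | mul_right y _ s hs ih =>
      rw [← mul_assoc]
      exact hcl _ ih _ trivial (cay_adj_mul hS _ hs)
    | mul_inv_cancel y _ s hs ih =>
      rw [← mul_assoc]
      exact hcl _ ih _ trivial (cay_adj_mul hS _ (hS.2.1 _ hs))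
  have := key (a⁻¹ * x)
  rwa [mul_inv_cancel_left] at this

namespace Sys

variable {Γ : Type*} [Group Γ] {S : Set Γ} {X : Γ → ℤ} {H : ℤ} {φ : Equiv.Perm Γ} {m : ℕ}

theorem Xz (D : Sys S X H φ m) (a : ℤ) (g : Γ) : X ((φ ^ a) g) = X g + a * H := by
  induction a using Int.induction_on with
  | zero => simp
  | succ a ih =>
    have e : (φ ^ ((a : ℤ) + 1)) g = φ ((φ ^ (a : ℤ)) g) := by
      rw [add_comm, zpow_add, zpow_one]; rfl
    rw [e, D.X1, ih]; ring
  | pred a ih =>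
    have e : (φ ^ (-(a : ℤ))) g = φ ((φ ^ (-(a : ℤ) - 1)) g) := by
      have : φ ^ (-(a : ℤ)) = φ * φ ^ (-(a : ℤ) - 1) := by
        rw [← zpow_one_add]; congr 1; ring
      rw [this]; rfl
    have h2 := D.X1 ((φ ^ (-(a : ℤ) - 1)) g)
    rw [← e, ih] at h2
    linarith

theorem lsys (D : Sys S X H φ m) : ∃ (n : ℕ) (G : SimpleGraph (ℤ × Fin n)),
    n = Nat.card {g | 0 ≤ X g ∧ X g < H} ∧ Lsys n m G ∧ Nonempty (cay S ≃g G) := by
  classical
  have hfin : Finite {g | 0 ≤ X g ∧ X g < H} := D.fin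
  let n := Nat.card {g | 0 ≤ X g ∧ X g < H}
  let er : {g | 0 ≤ X g ∧ X g < H} ≃ Fin n := Finite.equivFin _
  let ρ : Fin n → Γ := fun i => (er.symm i).1
  have hρ : ∀ i, 0 ≤ X (ρ i) ∧ X (ρ i) < H := fun i => (er.symm i).2
  have hH := D.Hpos
  let ψ : ℤ × Fin n → Γ := fun v => (φ ^ v.1) (ρ v.2)
  have hXψ : ∀ a i, X (ψ (a, i)) = X (ρ i) + a * H := fun a i => D.Xz a _
  have hinj : Function.Injective ψ := by
    rintro ⟨a, i⟩ ⟨b, j⟩ h
    have h1 := congrArg X h
    rw [hXψ, hXψ] at h1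
    have hi := hρ i
    have hj := hρ j
    have hab : a = b := by
      by_contra hne
      rcases lt_or_gt_of_ne hne with hlt | hlt
      · have : a + 1 ≤ b := by omega
        nlinarith
      · have : b + 1 ≤ a := by omega
        nlinarith
    subst hab
    have h2 : ρ i = ρ j := (φ ^ a).injective h
    have h3 : er.symm i = er.symm j := Subtype.ext h2
    rw [er.symm.injective h3]
  have hsurj : Function.Surjective ψ := by
    intro g
    have h1 : X ((φ ^ (-(X g / H))) g) = X g - X g / H * H := by rw [D.Xz]; ring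
    have h2 := Int.emod_add_mul_ediv (X g) H
    have h3 := Int.emod_nonneg (X g) hH.ne'
    have h4 := Int.emod_lt_of_pos (X g) hH
    have h5 : X g - X g / H * H = X g % H := by linarith
    let r : {g | 0 ≤ X g ∧ X g < H} := ⟨(φ ^ (-(X g / H))) g, by
      rw [Set.mem_setOf_eq, h1, h5]; exact ⟨h3, h4⟩⟩
    refine ⟨(X g / H, er r), ?_⟩
    show (φ ^ (X g / H)) ((er.symm (er r)).1) = g
    rw [Equiv.symm_apply_apply]
    show (φ ^ (X g / H)) ((φ ^ (-(X g / H))) g) = g
    rw [← Equiv.Perm.mul_apply, ← zpow_add, add_neg_cancel, zpow_zero]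
    rfl
  let ψe : ℤ × Fin n ≃ Γ := Equiv.ofBijective ψ ⟨hinj, hsurj⟩
  have hψe : ∀ v, ψe v = ψ v := fun v => rfl
  let G : SimpleGraph (ℤ × Fin n) := (cay S).comap ψe
  have hG : ∀ v w, G.Adj v w ↔ (cay S).Adj (ψ v) (ψ w) := fun v w => Iff.rfl
  refine ⟨n, G, rfl, ⟨?_, D.mpos, ?_, ?_, ?_, ?_, ?_⟩, ⟨(SimpleGraph.Iso.comap ψe (cay S)).symm⟩⟩
  · -- npos
    obtain ⟨⟨_, i⟩, _⟩ := hsurj 1
    exact Nat.lt_of_le_of_lt (Nat.zero_le _) i.isLt
  · intro a j
    rw [hG]
    have e : ψ (a + 1, j) = φ (ψ (a, j)) := by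
      show (φ ^ (a + 1)) (ρ j) = φ ((φ ^ a) (ρ j))
      rw [add_comm, zpow_add, zpow_one]; rfl
    rw [e]
    exact D.adj _
  · intro a b i j h
    rw [hG] at h
    have h1 := D.bd _ _ h
    rw [hXψ, hXψ] at h1
    have hi := hρ i
    have hj := hρ j
    rw [abs_le] at h1 ⊢
    constructor
    · by_contra hcon
      have : a + 2 ≤ b := by omega
      nlinarith [h1.1]
    · by_contra hcon
      have : b + 2 ≤ a := by omega
      nlinarith [h1.2]
  · intro a b i j
    obtain ⟨c, hc⟩ := D.per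
    have e : ∀ a i, ψ (a + m, i) = c * ψ (a, i) := by
      intro a i
      show (φ ^ (a + (m : ℤ))) (ρ i) = c * (φ ^ a) (ρ i)
      rw [hc, add_comm, zpow_add, zpow_natCast]; rfl
    rw [hG, hG, e, e, cay_left D.gen]
  · have h1 := (conn_cay D.gen).image (G' := G) ψe.symm (by
      intro a _ b _ hab
      refine Or.inr ?_
      show (cay S).Adj (ψe (ψe.symm a)) (ψe (ψe.symm b))
      rw [Equiv.apply_symm_apply, Equiv.apply_symm_apply]
      exact hab)
    rw [Set.image_univ, ψe.symm.surjective.range_eq] at h1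
    exact h1
  · intro i j
    obtain ⟨g, e, he, hg, d, hd⟩ := D.tr (ρ i) (ρ j)
    have hee : e * e = 1 := by rcases he with rfl | rfl <;> rfl
    have hgz : ∀ (a : ℤ) (x : Γ), g * (φ ^ a) x = (φ ^ (e * a)) (g * x) := by
      have hs : SemiconjBy (Equiv.mulLeft g : Equiv.Perm Γ) φ (φ ^ e) := by
        ext x
        exact hg x
      intro a x
      have h1 := (hs.zpow_right a).eq
      have h2 := congrArg (fun p : Equiv.Perm Γ => p x) h1
      rw [← zpow_mul] at h2
      exact h2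
    let cf : Fin n → ℤ := fun k => (ψe.symm (g * ρ k)).1
    let τ₀ : Fin n → Fin n := fun k => (ψe.symm (g * ρ k)).2
    have hcf : ∀ k, g * ρ k = (φ ^ (cf k)) (ρ (τ₀ k)) := by
      intro k
      have h1 : ψe (ψe.symm (g * ρ k)) = g * ρ k := ψe.apply_symm_apply _
      exact h1.symm
    have hψ : ∀ a k, g * ψ (a, k) = ψ (e * a + cf k, τ₀ k) := by
      intro a k
      show g * (φ ^ a) (ρ k) = (φ ^ (e * a + cf k)) (ρ (τ₀ k))
      rw [hgz, hcf, zpow_add]; rfl
    have hτinj : Function.Injective τ₀ := by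
      intro k k' hk
      have h1 := hψ (e * (cf k' - cf k)) k
      have h2 := hψ 0 k'
      have h3 : e * (e * (cf k' - cf k)) + cf k = e * 0 + cf k' := by
        rw [← mul_assoc, hee]; ring
      rw [h3, hk, ← h2] at h1
      have h4 := hinj (mul_left_cancel h1)
      exact (Prod.ext_iff.1 h4).2
    let τ : Equiv.Perm (Fin n) := Equiv.ofBijective τ₀ (Finite.injective_iff_bijective.1 hτinj)
    let fe : ℤ × Fin n ≃ ℤ × Fin n := (ψe.trans (Equiv.mulLeft g)).trans ψe.symm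
    have hfe : ∀ v, ψe (fe v) = g * ψe v := by
      intro v
      show ψe (ψe.symm (g * ψe v)) = g * ψe v
      exact ψe.apply_symm_apply _
    refine ⟨⟨fe, ?_⟩, τ, e, cf, he, ?_, ?_⟩
    · intro v w
      show (cay S).Adj (ψe (fe v)) (ψe (fe w)) ↔ (cay S).Adj (ψe v) (ψe w)
      rw [hfe, hfe, cay_left D.gen]
    · show τ₀ i = j
      have h1 : ψe.symm (g * ρ i) = (d, j) := by
        rw [hd]
        exact ψe.symm_apply_apply (d, j)
      show (ψe.symm (g * ρ i)).2 = j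
      rw [h1]
    · intro a k
      show fe (a, k) = (e * a + cf k, τ₀ k)
      apply ψe.injective
      rw [hfe]
      exact hψ a k

end Sys

end Pool.Agent.Helper78.NW
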